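import Pool.Agent.H446Z.Harm.Defs

/-! Calculus of partial derivatives and the strong maximum principle of E. Hopf. -/

set_option autoImplicit false

open scoped Topology
open Filter Set Metric

namespace Pool.Agent.H446Z.Harm

variable {m : ℕ}

theorem pd_congr {f g : Euc m → ℝ} {y : Euc m} (h : f =ᶠ[𝓝 y] g) (i : Fin m) :
    pd i f y = pd i g y := by
  unfold pd; rw [h.fderiv_eq]

theorem pd_congr' {f g : Euc m → ℝ} {y : Euc m} (h : f =ᶠ[𝓝 y] g) (i : Fin m) :
    pd i f =ᶠ[𝓝 y] pd i g := by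
  filter_upwards [h.eventuallyEq_nhds] with z hz using pd_congr hz i

theorem pd_add {f g : Euc m → ℝ} {y : Euc m} (hf : DifferentiableAt ℝ f y)
    (hg : DifferentiableAt ℝ g y) (i : Fin m) :
    pd i (fun z => f z + g z) y = pd i f y + pd i g y := by
  unfold pd; rw [fderiv_fun_add hf hg]; rfl

theorem pd_mul {f g : Euc m → ℝ} {y : Euc m} (hf : DifferentiableAt ℝ f y)
    (hg : DifferentiableAt ℝ g y) (i : Fin m) :
    pd i (fun z => f z * g z) y = pd i f y * g y + f y * pd i g y := by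
  unfold pd; rw [fderiv_fun_mul hf hg]
  simp only [ContinuousLinearMap.add_apply, ContinuousLinearMap.smul_apply, smul_eq_mul]
  ring

theorem pd_const (c : ℝ) (y : Euc m) (i : Fin m) : pd i (fun _ => c) y = 0 := by
  unfold pd; simp

theorem pd_const_mul {f : Euc m → ℝ} {y : Euc m} (hf : DifferentiableAt ℝ f y) (c : ℝ)
    (i : Fin m) : pd i (fun z => c * f z) y = c * pd i f y := by
  rw [pd_mul (differentiableAt_const c) hf, pd_const]; ring

theorem pd_comp {u : Euc m → ℝ} {y : Euc m} (hu : DifferentiableAt ℝ u y) {f : ℝ → ℝ} {f' : ℝ}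
    (hf : HasDerivAt f f' (u y)) (i : Fin m) :
    pd i (fun z => f (u z)) y = f' * pd i u y := by
  unfold pd
  have := (hf.comp_hasFDerivAt y hu.hasFDerivAt).fderiv
  rw [show (fun z => f (u z)) = f ∘ u from rfl, this]
  simp

theorem pd_coord (y : Euc m) (i j : Fin m) :
    pd i (fun z : Euc m => z j) y = if j = i then 1 else 0 := by
  unfold pd
  have : (fun z : Euc m => z j) = (EuclideanSpace.proj j : Euc m →L[ℝ] ℝ) := rfl
  rw [this, ContinuousLinearMap.fderiv]
  simp

theorem contDiffAt_pd {u : Euc m → ℝ} {y : Euc m} {k l : WithTop ℕ∞} (hu : ContDiffAt ℝ l u y)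
    (hkl : k + 1 ≤ l) (j : Fin m) : ContDiffAt ℝ k (pd j u) y :=
  (hu.fderiv_right hkl).clm_apply contDiffAt_const

theorem differentiableAt_pd {u : Euc m → ℝ} {y : Euc m} (hu : ContDiffAt ℝ 2 u y) (j : Fin m) :
    DifferentiableAt ℝ (pd j u) y :=
  (contDiffAt_pd (k := 1) hu (by norm_num) j).differentiableAt (by norm_num)

theorem ev_diff {u : Euc m → ℝ} {y : Euc m} (hu : ContDiffAt ℝ 2 u y) :
    ∀ᶠ z in 𝓝 y, DifferentiableAt ℝ u z := by
  filter_upwards [hu.eventually (by simp)] with z hz using hz.differentiableAt (by norm_num)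

theorem fderiv_eq_sum (f : Euc m → ℝ) (y : Euc m) (b : Euc m) :
    fderiv ℝ f y b = ∑ i, b i * pd i f y := by
  conv_lhs => rw [← (EuclideanSpace.basisFun (Fin m) ℝ).sum_repr b]
  simp [map_sum, pd]

theorem second_nonpos {v : Euc m → ℝ} {y : Euc m} (hv : ContDiffAt ℝ 2 v y)
    (hmax : IsLocalMax v y) (b : Euc m) : ∑ i, ∑ j, b i * b j * pd i (pd j v) y ≤ 0 := by
  by_contra hpos
  push Not at hpos
  let γ : ℝ → Euc m := fun t => y + t • b
  have hγ : ∀ t, HasDerivAt γ b t := fun t => by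
    have := ((hasDerivAt_id t).smul_const b).const_add y
    rw [one_smul] at this
    exact this
  have hγ0 : γ 0 = y := by simp [γ]
  have hγc : Tendsto γ (𝓝 0) (𝓝 y) := by
    have := (hγ 0).continuousAt.tendsto
    rwa [hγ0] at this
  have h1 : deriv (v ∘ γ) =ᶠ[𝓝 0] fun t => ∑ j, b j * pd j v (γ t) := by
    filter_upwards [hγc.eventually (ev_diff hv)] with t ht
    rw [(ht.hasFDerivAt.comp_hasDerivAt t (hγ t)).deriv, fderiv_eq_sum]
  have h2 : HasDerivAt (fun t => ∑ j, b j * pd j v (γ t))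
      (∑ j, b j * ∑ i, b i * pd i (pd j v) y) 0 := by
    refine HasDerivAt.fun_sum fun j _ => HasDerivAt.const_mul _ ?_
    have hd : DifferentiableAt ℝ (pd j v) (γ 0) := by rw [hγ0]; exact differentiableAt_pd hv j
    have := hd.hasFDerivAt.comp_hasDerivAt 0 (hγ 0)
    rwa [fderiv_eq_sum, hγ0] at this
  have h3 : deriv (deriv (v ∘ γ)) 0 = ∑ i, ∑ j, b i * b j * pd i (pd j v) y := by
    rw [h1.deriv_eq, h2.deriv, Finset.sum_comm]
    simp only [Finset.mul_sum]
    refine Finset.sum_congr rfl fun j _ => Finset.sum_congr rfl fun i _ => by ring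
  have hmax' : IsLocalMax (v ∘ γ) 0 := by
    have : IsLocalMax v (γ 0) := by rwa [hγ0]
    exact this.comp_continuous (hγ 0).continuousAt
  have hc : ContinuousAt (v ∘ γ) 0 := by
    have : ContinuousAt v (γ 0) := by rw [hγ0]; exact hv.continuousAt
    exact this.comp (hγ 0).continuousAt
  have hmin := isLocalMin_of_deriv_deriv_pos (f := v ∘ γ) (by rw [h3]; exact hpos)
    hmax'.deriv_eq_zero hc
  have hconst : (v ∘ γ) =ᶠ[𝓝 0] fun _ => (v ∘ γ) 0 := by
    filter_upwards [hmin, hmax'] with t h1 h2 using le_antisymm h2 h1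
  have : deriv (deriv (v ∘ γ)) 0 = 0 := by
    rw [hconst.deriv.deriv_eq]; simp
  linarith

theorem trace_nonpos {v : Euc m → ℝ} {y : Euc m} (hv : ContDiffAt ℝ 2 v y)
    (hmax : IsLocalMax v y) {a : Matrix (Fin m) (Fin m) ℝ} (ha : a.PosSemidef) :
    ∑ i, ∑ j, a i j * pd i (pd j v) y ≤ 0 := by
  obtain ⟨r, B, rfl⟩ := Matrix.posSemidef_iff_eq_sum_vecMulVec.1 ha
  have : ∑ i, ∑ j, (∑ k, Matrix.vecMulVec (B k) (star (B k))) i j * pd i (pd j v) y =
      ∑ k, ∑ i, ∑ j, B k i * B k j * pd i (pd j v) y := by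
    simp only [Matrix.sum_apply, Matrix.vecMulVec_apply, star_trivial, Finset.sum_mul]
    rw [Finset.sum_comm (s := Finset.univ) (t := Finset.univ)
      (f := fun k i => ∑ j, B k i * B k j * pd i (pd j v) y)]
    refine Finset.sum_congr rfl fun i _ => Finset.sum_comm
  rw [this]
  exact Finset.sum_nonpos fun k _ => second_nonpos hv hmax (WithLp.toLp 2 (B k))

/-- the barrier -/
noncomputable def bar (c : Euc m) (α : ℝ) (y : Euc m) : ℝ := Real.exp (-α * ∑ i, (y i - c i) ^ 2)

theorem contDiff_bar (c : Euc m) (α : ℝ) : ContDiff ℝ 2 (bar c α) := by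
  unfold bar; fun_prop

theorem pd_sq (c : Euc m) (y : Euc m) (j : Fin m) :
    pd j (fun z : Euc m => ∑ i, (z i - c i) ^ 2) y = 2 * (y j - c j) := by
  have : ∀ i : Fin m, pd j (fun z : Euc m => (z i - c i) ^ 2) y
      = 2 * (y i - c i) * if i = j then 1 else 0 := by
    intro i
    have h : HasDerivAt (fun t : ℝ => (t - c i) ^ 2) (2 * (y i - c i)) (y i) := by
      have := ((hasDerivAt_id (y i)).sub_const (c i)).fun_pow 2
      simpa using this
    rw [← pd_coord y j i]
    exact pd_comp (u := fun z : Euc m => z i) (by fun_prop) h j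
  unfold pd at this ⊢
  rw [fderiv_fun_sum (fun i _ => by fun_prop)]
  simp [this]

theorem pd_bar (c : Euc m) (α : ℝ) (j : Fin m) :
    pd j (bar c α) = fun y => -2 * α * ((y j - c j) * bar c α y) := by
  funext y
  have h : HasDerivAt (fun t : ℝ => Real.exp (-α * t))
      (Real.exp (-α * ∑ i, (y i - c i) ^ 2) * -α) (∑ i, (y i - c i) ^ 2) := by
    simpa using ((hasDerivAt_id (∑ i, (y i - c i) ^ 2)).const_mul (-α)).exp
  have := pd_comp (u := fun z : Euc m => ∑ i, (z i - c i) ^ 2) (y := y) (by fun_prop) h j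
  rw [pd_sq] at this
  unfold bar
  rw [this]; ring

theorem pd_pd_bar (c : Euc m) (α : ℝ) (i j : Fin m) (y : Euc m) :
    pd i (pd j (bar c α)) y =
      (4 * α ^ 2 * ((y i - c i) * (y j - c j)) - 2 * α * if j = i then 1 else 0) * bar c α y := by
  have hb : DifferentiableAt ℝ (bar c α) y :=
    (contDiff_bar c α).contDiffAt.differentiableAt (by norm_num)
  rw [pd_bar, pd_const_mul (by fun_prop), pd_mul (by fun_prop) hb, pd_bar]
  have : pd i (fun z : Euc m => z j - c j) y = if j = i then 1 else 0 := by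
    rw [← pd_coord y i j]
    unfold pd
    rw [fderiv_sub_const]
  rw [this]; ring

theorem sum_sq_eq (c y : Euc m) : ∑ i, (y i - c i) ^ 2 = dist y c ^ 2 := by
  rw [EuclideanSpace.dist_eq, Real.sq_sqrt (Finset.sum_nonneg fun i _ => sq_nonneg _)]
  simp [Real.dist_eq]

theorem hopf (a : Euc m → Matrix (Fin m) (Fin m) ℝ) (u : Euc m → ℝ) (y0 : Euc m) (C : ℝ)
    (h : ∀ᶠ y in 𝓝 y0, (a y).PosDef ∧ (∀ i j, ContinuousAt (fun z => a z i j) y) ∧
      ContDiffAt ℝ 2 u y ∧ 0 ≤ ∑ i, ∑ j, a y i j * pd i (pd j u) y + C * ∑ k, |pd k u y|)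
    (hmax : IsLocalMax u y0) : ∀ᶠ y in 𝓝 y0, u y = u y0 := by
  obtain ⟨R, hR, hB⟩ := Metric.eventually_nhds_iff_ball.1 (h.and hmax)
  refine Metric.eventually_nhds_iff_ball.2 ⟨R / 8, by positivity, fun y1 hy1 => ?_⟩
  by_contra hne
  have hsub : ∀ {y}, dist y y0 ≤ R / 2 → y ∈ ball y0 R := fun hy => by
    rw [mem_ball]; linarith
  have hcont : ContinuousOn u (closedBall y0 (R / 2)) := fun y hy =>
    (hB y (hsub hy)).1.2.2.1.continuousAt.continuousWithinAt
  set Z : Set (Euc m) := closedBall y0 (R / 2) ∩ u ⁻¹' {u y0} with hZ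
  have hZc : IsCompact Z :=
    (isCompact_closedBall y0 (R / 2)).of_isClosed_subset
      (hcont.preimage_isClosed_of_isClosed isClosed_closedBall isClosed_singleton)
      inter_subset_left
  have hy0Z : y0 ∈ Z := ⟨mem_closedBall_self (by positivity), rfl⟩
  obtain ⟨y2, hy2Z, hy2⟩ := hZc.exists_isMinOn ⟨y0, hy0Z⟩
    (f := fun y => dist y y1) (by fun_prop)
  set d := dist y2 y1 with hd
  have hy1' : dist y1 y0 < R / 8 := hy1
  have hdle : d < R / 8 := by
    have : d ≤ dist y0 y1 := hy2 hy0Z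
    rw [dist_comm] at this; linarith
  have hdpos : 0 < d := by
    rw [hd, dist_pos]
    rintro rfl
    exact hne hy2Z.2
  set c := midpoint ℝ y1 y2 with hc
  have hc2 : dist y2 c = d / 2 := by
    rw [hc, dist_right_midpoint, dist_comm y1 y2, ← hd]; simp; ring
  have hc1 : dist c y1 = d / 2 := by
    rw [hc, dist_midpoint_left, dist_comm y1 y2, ← hd]; simp; ring
  have hD : ∀ y ∈ closedBall y2 (d / 4), dist y y0 ≤ R / 2 := by
    intro y hy
    have h1 : dist y y2 ≤ d / 4 := hy
    have := dist_triangle4 y y2 y1 y0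
    linarith
  have hDc : ∀ y ∈ closedBall y2 (d / 4), y ≠ c := by
    rintro y hy rfl
    have h1 : dist c y2 ≤ d / 4 := hy
    rw [dist_comm] at h1; linarith
  -- uniqueness of the touching point
  have huniq : ∀ y ∈ closedBall y2 (d / 4), dist y c ≤ d / 2 → u y = u y0 → y = y2 := by
    intro y hy hyc hu
    have h1 : d ≤ dist y y1 := hy2 (show y ∈ Z from ⟨hD y hy, hu⟩)
    have h2 := EuclideanSpace.dist_eq y c
    have hpar : dist y c ^ 2 = (dist y y1 ^ 2 + dist y y2 ^ 2) / 2 - d ^ 2 / 4 := by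
      rw [hd, ← sum_sq_eq, ← sum_sq_eq, ← sum_sq_eq, ← sum_sq_eq, ← Finset.sum_add_distrib,
        Finset.sum_div, Finset.sum_div, ← Finset.sum_sub_distrib]
      refine Finset.sum_congr rfl fun i _ => ?_
      have : c i = (y1 i + y2 i) / 2 := by
        rw [hc, midpoint_eq_smul_add]; simp; ring
      rw [this]; ring
    have h3 : dist y c ^ 2 ≤ (d / 2) ^ 2 := pow_le_pow_left₀ dist_nonneg hyc 2
    have h4 : d ^ 2 ≤ dist y y1 ^ 2 := pow_le_pow_left₀ hdpos.le h1 2
    have h5 : dist y y2 ^ 2 ≤ 0 := by nlinarith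
    have h6 : dist y y2 = 0 := by
      have := sq_nonneg (dist y y2)
      exact pow_eq_zero_iff (two_ne_zero) |>.1 (le_antisymm h5 this)
    exact dist_eq_zero.1 h6
  -- ellipticity constants on the small ball
  have hKc := isCompact_closedBall y2 (d / 4)
  have hy2D : y2 ∈ closedBall y2 (d / 4) := mem_closedBall_self (by positivity)
  have haC : ∀ i j, ContinuousOn (fun z => a z i j) (closedBall y2 (d / 4)) := fun i j y hy =>
    ((hB y (hsub (hD y hy))).1.2.1 i j).continuousWithinAt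
  obtain ⟨z1, hz1, hκ⟩ := hKc.exists_isMinOn ⟨y2, hy2D⟩
    (f := fun y => ∑ i, ∑ j, a y i j * ((y i - c i) * (y j - c j)))
    (continuousOn_finsetSum _ fun i _ => continuousOn_finsetSum _ fun j _ =>
      (haC i j).mul (by fun_prop))
  obtain ⟨z2, hz2, hΛ⟩ := hKc.exists_isMaxOn ⟨y2, hy2D⟩
    (f := fun y => ∑ i, a y i i + |C| * ∑ k, |y k - c k|)
    ((continuousOn_finsetSum _ fun i _ => haC i i).add (by fun_prop))
  set κ := ∑ i, ∑ j, a z1 i j * ((z1 i - c i) * (z1 j - c j)) with hκd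
  set Λ := ∑ i, a z2 i i + |C| * ∑ k, |z2 k - c k| with hΛd
  have hκpos : 0 < κ := by
    have hp := (hB z1 (hsub (hD z1 hz1))).1.1
    have hne0 : (fun i => z1 i - c i) ≠ 0 := by
      intro h0
      apply hDc z1 hz1
      ext i
      have := congrFun h0 i
      simpa [sub_eq_zero] using this
    have := hp.dotProduct_mulVec_pos hne0
    rw [hκd]
    refine this.trans_eq ?_
    simp only [dotProduct, Matrix.mulVec, star_trivial, Finset.mul_sum]
    refine Finset.sum_congr rfl fun i _ => Finset.sum_congr rfl fun j _ => by ring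
  set α := |Λ| / κ + 1 with hα
  have hαpos : 0 < α := by positivity
  have hακ : Λ < 2 * α * κ := by
    have : α * κ = |Λ| + κ := by rw [hα]; field_simp
    have h2 := le_abs_self Λ
    have h3 := abs_nonneg Λ
    nlinarith
  -- the gap on the part of the sphere inside the ball around `c`
  obtain ⟨ε, hε, hgap⟩ : ∃ ε > 0, ∀ y ∈ sphere y2 (d / 4), dist y c ≤ d / 2 → u y + ε < u y0 := by
    have hKK : IsCompact (sphere y2 (d / 4) ∩ closedBall c (d / 2)) :=
      (isCompact_sphere _ _).inter_right isClosed_closedBall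
    rcases (sphere y2 (d / 4) ∩ closedBall c (d / 2)).eq_empty_or_nonempty with he | hn
    · exact ⟨1, one_pos, fun y hy hy' => by
        have : y ∈ sphere y2 (d / 4) ∩ closedBall c (d / 2) := ⟨hy, hy'⟩
        rw [he] at this; exact this.elim⟩
    · obtain ⟨z, hz, hzm⟩ := hKK.exists_isMaxOn hn (f := u)
        (hcont.mono fun y hy => hD y (sphere_subset_closedBall hy.1))
      have hlt : u z < u y0 := by
        refine lt_of_le_of_ne (hB z (hsub (hD z (sphere_subset_closedBall hz.1)))).2 fun he => ?_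
        have := huniq z (sphere_subset_closedBall hz.1) hz.2 he
        have h1 : dist z y2 = d / 4 := hz.1
        rw [this, dist_self] at h1
        linarith
      refine ⟨(u y0 - u z) / 2, by linarith, fun y hy hy' => ?_⟩
      have : u y ≤ u z := hzm (show y ∈ _ from ⟨hy, hy'⟩)
      linarith
  set v : Euc m → ℝ := fun y => u y + ε * bar c α y with hv
  obtain ⟨ys, hys, hysm⟩ := hKc.exists_isMaxOn ⟨y2, hy2D⟩ (f := v)
    ((hcont.mono fun y hy => hD y hy).add
      (continuousOn_const.mul (contDiff_bar c α).continuous.continuousOn))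
  have hv2 : v y2 = u y0 + ε * Real.exp (-α * (d / 2) ^ 2) := by
    simp only [hv, bar, sum_sq_eq, hc2]
    rw [show u y2 = u y0 from hy2Z.2]
  have hint : ys ∈ ball y2 (d / 4) := by
    by_contra hnot
    have hsph : ys ∈ sphere y2 (d / 4) := by
      rw [mem_sphere]
      exact le_antisymm hys (not_lt.1 hnot)
    have h1 : v y2 ≤ v ys := hysm hy2D
    rw [hv2] at h1
    simp only [hv, bar, sum_sq_eq] at h1
    have hpos := Real.exp_pos (-α * (d / 2) ^ 2)
    rcases le_or_gt (dist ys c) (d / 2) with h2 | h2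
    · have h3 := hgap ys hsph h2
      have h4 : Real.exp (-α * dist ys c ^ 2) ≤ 1 := by
        rw [Real.exp_le_one_iff]; nlinarith [sq_nonneg (dist ys c)]
      nlinarith
    · have h3 : u ys ≤ u y0 := (hB ys (hsub (hD ys hys))).2
      have h4 : Real.exp (-α * dist ys c ^ 2) < Real.exp (-α * (d / 2) ^ 2) := by
        rw [Real.exp_lt_exp]
        have : (d / 2) ^ 2 < dist ys c ^ 2 := pow_lt_pow_left₀ h2 (by positivity) two_ne_zero
        nlinarith
      nlinarith
  have hloc : IsLocalMax v ys :=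
    hysm.isLocalMax (mem_of_superset (isOpen_ball.mem_nhds hint) ball_subset_closedBall)
  obtain ⟨⟨hp, -, hu2, hL⟩, -⟩ := hB ys (hsub (hD ys hys))
  have hb2 : ∀ y, ContDiffAt ℝ 2 (bar c α) y := fun y => (contDiff_bar c α).contDiffAt
  have hvc : ContDiffAt ℝ 2 v ys := hu2.add (contDiffAt_const.mul (hb2 ys))
  have hpdv : ∀ j, pd j v =ᶠ[𝓝 ys] fun y => pd j u y + ε * pd j (bar c α) y := by
    intro j
    filter_upwards [ev_diff hu2] with y hy
    have hb : DifferentiableAt ℝ (bar c α) y := (hb2 y).differentiableAt (by norm_num)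
    rw [hv, pd_add hy (by fun_prop), pd_const_mul hb]
  have h1 : ∀ k, pd k u ys = -(ε * pd k (bar c α) ys) := by
    intro k
    have h0 : pd k v ys = 0 := by unfold pd; rw [hloc.fderiv_eq_zero]; rfl
    have : pd k v ys = pd k u ys + ε * pd k (bar c α) ys := (hpdv k).eq_of_nhds
    linarith
  have h2 : ∀ i j, pd i (pd j v) ys = pd i (pd j u) ys + ε * pd i (pd j (bar c α)) ys := by
    intro i j
    have hb := differentiableAt_pd (hb2 ys) j
    rw [pd_congr (hpdv j), pd_add (differentiableAt_pd hu2 j) (by fun_prop), pd_const_mul hb]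
  have h3 := trace_nonpos hvc hloc hp.posSemidef
  have hbpos : 0 < bar c α ys := Real.exp_pos _
  have h4 : ∑ i, ∑ j, a ys i j * pd i (pd j v) ys = ∑ i, ∑ j, a ys i j * pd i (pd j u) ys +
      ε * bar c α ys * (4 * α ^ 2 * (∑ i, ∑ j, a ys i j * ((ys i - c i) * (ys j - c j)))
        - 2 * α * ∑ i, a ys i i) := by
    have e1 : ∑ i, a ys i i = ∑ i, ∑ j, a ys i j * if j = i then 1 else 0 := by simp
    simp only [h2, pd_pd_bar, e1, Finset.mul_sum, ← Finset.sum_sub_distrib,
      ← Finset.sum_add_distrib]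
    refine Finset.sum_congr rfl fun i _ => Finset.sum_congr rfl fun j _ => by ring
  have h5 : ∑ k, |pd k u ys| = ε * bar c α ys * (2 * α * ∑ k, |ys k - c k|) := by
    simp only [h1, pd_bar, Finset.mul_sum]
    refine Finset.sum_congr rfl fun k _ => ?_
    rw [abs_neg, abs_mul, abs_mul, abs_mul, abs_mul, abs_of_pos hε, abs_of_pos hαpos,
      abs_of_pos hbpos]
    simp; ring
  have h6 : κ ≤ ∑ i, ∑ j, a ys i j * ((ys i - c i) * (ys j - c j)) := hκ hys
  have h7 : ∑ i, a ys i i + |C| * ∑ k, |ys k - c k| ≤ Λ := hΛ hys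
  have h8 : 0 ≤ ∑ k, |ys k - c k| := Finset.sum_nonneg fun k _ => abs_nonneg _
  rw [h5] at hL
  rw [h4] at h3
  set S := ∑ k, |ys k - c k|
  set Q := ∑ i, ∑ j, a ys i j * ((ys i - c i) * (ys j - c j))
  set T := ∑ i, a ys i i
  have h9 : C * S ≤ |C| * S := mul_le_mul_of_nonneg_right (le_abs_self C) h8
  have h10 : 0 < 2 * α * Q - T - C * S := by nlinarith
  have h11 : 0 < ε * bar c α ys * (2 * α) * (2 * α * Q - T - C * S) := by positivity
  nlinarith

end Pool.Agent.H446Z.Harm
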