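import Pool.Agent.H446Z.Harm.Hopf

/-! Subharmonic functions on closed connected Riemannian manifolds are constant. -/

set_option autoImplicit false

open scoped Topology Manifold ContDiff
open Filter Set Bundle

namespace Pool.Agent.H446Z.Harm

variable {m : ℕ} {M : Type*} [TopologicalSpace M] [ChartedSpace (Euc m) M]
  [IsManifold (𝓡 m) ∞ M]

theorem contDiffAt_coeff (g : RMetric (Euc m) M) (p : M) {y : Euc m}
    (hy : y ∈ (extChartAt (𝓡 m) p).target) (i j : Fin m) :
    ContDiffAt ℝ ∞ (fun z => coeff g p z i j) y := by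
  set e := trivializationAt (Euc m) (TangentSpace (𝓡 m)) p with he
  have hx : (extChartAt (𝓡 m) p).symm y ∈ (chartAt (Euc m) p).source := by
    have := (extChartAt (𝓡 m) p).map_target hy
    rwa [extChartAt_source] at this
  have hsec : ∀ v : Euc m, ContMDiffAt (𝓡 m) ((𝓡 m).prod 𝓘(ℝ, Euc m)) ∞
      (fun x : M => TotalSpace.mk' (Euc m) x (e.symmL ℝ x v)) ((extChartAt (𝓡 m) p).symm y) := by
    intro v
    have h1 : ContMDiffOn (𝓡 m) ((𝓡 m).prod 𝓘(ℝ, Euc m)) ∞
        (fun x : M => TotalSpace.mk' (Euc m) x (e.symmL ℝ x v)) e.baseSet := by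
      rw [e.contMDiffOn_section_baseSet_iff]
      apply (contMDiffOn_const (c := v)).congr
      intro z hz
      simp [hz]
    exact h1.contMDiffAt (e.open_baseSet.mem_nhds (by simpa [he] using hx))
  have h2 := ContMDiffAt.clm_bundle_apply₂ (F₁ := Euc m) (F₂ := Euc m) (F₃ := ℝ)
    (E₃ := Bundle.Trivial M ℝ) (b := fun x : M => x)
    (g.contMDiff ((extChartAt (𝓡 m) p).symm y))
    (hsec (EuclideanSpace.single i 1)) (hsec (EuclideanSpace.single j 1))
  rw [contMDiffAt_totalSpace] at h2
  have h3 : ContMDiffAt (𝓡 m) 𝓘(ℝ, ℝ) ∞ (fun x : M => g.inner x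
      (e.symmL ℝ x (EuclideanSpace.single i 1)) (e.symmL ℝ x (EuclideanSpace.single j 1)))
      ((extChartAt (𝓡 m) p).symm y) := h2.2
  have h4 : ContMDiffAt (𝓡 m) (𝓡 m) ∞ (extChartAt (𝓡 m) p).symm y :=
    (contMDiffOn_extChartAt_symm p y hy).contMDiffAt (extChartAt_target_mem_nhds' hy)
  have h5 := (h3.comp y h4).contDiffAt
  refine h5.congr_of_eventuallyEq ?_
  filter_upwards [extChartAt_target_mem_nhds' hy] with z hz
  have hx' : (extChartAt (𝓡 m) p).symm z ∈ (chartAt (Euc m) p).source := by
    have := (extChartAt (𝓡 m) p).map_target hz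
    rwa [extChartAt_source] at this
  have h6 := TangentBundle.symmL_trivializationAt (I := 𝓡 m) hx'
  rw [(extChartAt (𝓡 m) p).right_inv hz, ModelWithCorners.range_eq_univ, mfderivWithin_univ] at h6
  simp only [coeff, pull, ginner, Matrix.of_apply, Function.comp, he, h6]
  rfl

theorem posDef_coeff (g : RMetric (Euc m) M) (p : M) {y : Euc m}
    (hy : y ∈ (extChartAt (𝓡 m) p).target) : (coeff g p y).PosDef := by
  set D : Euc m →L[ℝ] TangentSpace (𝓡 m) ((extChartAt (𝓡 m) p).symm y) :=
    mfderiv (𝓡 m) (𝓡 m) (extChartAt (𝓡 m) p).symm y with hD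
  have hinv : D.IsInvertible := by
    have := isInvertible_mfderivWithin_extChartAt_symm (I := 𝓡 m) hy
    rwa [ModelWithCorners.range_eq_univ, mfderivWithin_univ] at this
  have hc : ∀ i j, coeff g p y i j = g.inner _ (D (EuclideanSpace.single i 1))
      (D (EuclideanSpace.single j 1)) := fun i j => rfl
  refine Matrix.PosDef.of_dotProduct_mulVec_pos ?_ fun v hv => ?_
  · ext i j
    simp only [Matrix.conjTranspose_apply, star_trivial, hc]
    exact g.symm _ _ _
  · set w : Euc m := WithLp.toLp 2 v with hw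
    have hw0 : D w ≠ 0 := by
      intro h0
      obtain ⟨L, hL⟩ := hinv
      rw [← hL] at h0
      have : w = 0 := L.injective (h0.trans (map_zero L).symm)
      apply hv
      funext i
      have := congrArg (fun z : Euc m => z i) this
      simpa [hw] using this
    have hsum : w = ∑ i, v i • (EuclideanSpace.single i 1 : Euc m) := by
      conv_lhs => rw [← (EuclideanSpace.basisFun (Fin m) ℝ).sum_repr w]
      simp [hw]
    refine (g.pos _ _ hw0).trans_eq ?_
    rw [hsum]
    simp only [map_sum, map_smul, ContinuousLinearMap.sum_apply, ContinuousLinearMap.smul_apply,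
      smul_eq_mul, dotProduct, Matrix.mulVec, star_trivial, hc, Finset.mul_sum]
    rw [Finset.sum_comm]
    refine Finset.sum_congr rfl fun i _ => Finset.sum_congr rfl fun j _ => by ring

theorem continuousAt_inv_coeff (g : RMetric (Euc m) M) (p : M) {y : Euc m}
    (hy : y ∈ (extChartAt (𝓡 m) p).target) (i j : Fin m) :
    ContinuousAt (fun z => (coeff g p z)⁻¹ i j) y := by
  have h1 : ContinuousAt (coeff g p) y :=
    continuousAt_pi.2 fun i => continuousAt_pi.2 fun j =>
      (contDiffAt_coeff g p hy i j).continuousAt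
  have h2 : ContinuousAt (fun A : Matrix (Fin m) (Fin m) ℝ => A⁻¹) (coeff g p y) := by
    apply continuousAt_matrix_inv
    rw [Ring.inverse_eq_inv']
    exact continuousAt_inv₀ (posDef_coeff g p hy).det_pos.ne'
  exact continuousAt_pi.1 (continuousAt_pi.1 (h2.comp h1) i) j

theorem continuousAt_chris (g : RMetric (Euc m) M) (p : M) {y : Euc m}
    (hy : y ∈ (extChartAt (𝓡 m) p).target) (k i j : Fin m) :
    ContinuousAt (chris (coeff g p) k i j) y := by
  have h : ∀ a b c, ContinuousAt (pd a fun z => coeff g p z b c) y := fun a b c =>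
    (contDiffAt_pd (k := 0) (contDiffAt_coeff g p hy b c) (by simp) a).continuousAt
  unfold chris
  exact continuousAt_const.mul (tendsto_finsetSum _ fun l _ =>
    (continuousAt_inv_coeff g p hy k l).mul (((h _ _ _).add (h _ _ _)).sub (h _ _ _)))

/-- the Laplacian in coordinates -/
noncomputable def lap (G : Euc m → Matrix (Fin m) (Fin m) ℝ) (f : Euc m → ℝ) (y : Euc m) : ℝ :=
  ∑ i, ∑ j, (G y)⁻¹ i j * hess G f i j y

theorem const_of_subharmonic [CompactSpace M] [ConnectedSpace M] (g : RMetric (Euc m) M) (w : M → ℝ)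
    (hw : Continuous w)
    (h : ∀ p : M, ∀ y ∈ (extChartAt (𝓡 m) p).target,
      ContDiffAt ℝ 2 (w ∘ (extChartAt (𝓡 m) p).symm) y ∧
        0 ≤ lap (coeff g p) (w ∘ (extChartAt (𝓡 m) p).symm) y) (x x' : M) : w x = w x' := by
  obtain ⟨x0, -, hx0⟩ := isCompact_univ.exists_isMaxOn ⟨x, mem_univ x⟩ hw.continuousOn
  have hclopen : IsClopen {z | w z = w x0} := by
    refine ⟨isClosed_eq hw continuous_const, isOpen_iff_mem_nhds.2 fun p hp => ?_⟩
    have hp' : w p = w x0 := hp
    set y0 := extChartAt (𝓡 m) p p with hy0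
    have hy0t : y0 ∈ (extChartAt (𝓡 m) p).target := mem_extChartAt_target p
    set u := w ∘ (extChartAt (𝓡 m) p).symm with hu
    have hu0 : u y0 = w p := by simp only [hu, hy0, Function.comp, extChartAt_to_inv]
    set β : Fin m → Euc m → ℝ := fun k y =>
      ∑ i, ∑ j, (coeff g p y)⁻¹ i j * chris (coeff g p) k i j y with hβ
    have hβc : ∀ k, ContinuousAt (β k) y0 := fun k =>
      tendsto_finsetSum _ fun i _ => tendsto_finsetSum _ fun j _ =>
        (continuousAt_inv_coeff g p hy0t i j).mul (continuousAt_chris g p hy0t k i j)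
    set C := ∑ k, |β k y0| + 1 with hC
    have hbd : ∀ᶠ y in 𝓝 y0, ∀ k, |β k y| ≤ C := by
      rw [Filter.eventually_all]
      intro k
      have h1 : |β k y0| < C := by
        have : |β k y0| ≤ ∑ k, |β k y0| :=
          Finset.single_le_sum (f := fun k => |β k y0|) (fun k _ => abs_nonneg _)
            (Finset.mem_univ k)
        linarith
      exact ((hβc k).abs.eventually (gt_mem_nhds h1)).mono fun y hy => hy.le
    have key := hopf (fun y => (coeff g p y)⁻¹) u y0 C ?_ ?_
    · have h2 : ContinuousAt (extChartAt (𝓡 m) p) p := continuousAt_extChartAt p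
      filter_upwards [h2.eventually key, extChartAt_source_mem_nhds (I := 𝓡 m) p] with z hz hz'
      have : u (extChartAt (𝓡 m) p z) = w z := by
        simp only [hu, Function.comp, (extChartAt (𝓡 m) p).left_inv hz']
      show w z = w x0
      rw [← this, hz, hu0, hp']
    · filter_upwards [extChartAt_target_mem_nhds' hy0t, hbd] with y hy hb
      refine ⟨(posDef_coeff g p hy).inv, fun i j => continuousAt_inv_coeff g p hy i j,
        (h p y hy).1, (h p y hy).2.trans ?_⟩
      have e : lap (coeff g p) u y = ∑ i, ∑ j, (coeff g p y)⁻¹ i j * pd i (pd j u) y -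
          ∑ k, β k y * pd k u y := by
        simp only [lap, hess, hβ, mul_sub, Finset.sum_sub_distrib, Finset.mul_sum,
          Finset.sum_mul, mul_assoc]
        congr 1
        rw [Finset.sum_comm (s := Finset.univ) (t := Finset.univ) (f := fun k i =>
          ∑ j, (coeff g p y)⁻¹ i j * (chris (coeff g p) k i j y * pd k u y))]
        exact Finset.sum_congr rfl fun i _ => Finset.sum_comm
      rw [e, sub_eq_add_neg, Finset.mul_sum, ← Finset.sum_neg_distrib]
      gcongr with k
      calc -(β k y * pd k u y) ≤ |β k y * pd k u y| := neg_le_abs _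
        _ = |β k y| * |pd k u y| := abs_mul _ _
        _ ≤ C * |pd k u y| := mul_le_mul_of_nonneg_right (hb k) (abs_nonneg _)
    · refine Filter.Eventually.of_forall fun y => ?_
      rw [hu0, hp']
      exact hx0 (mem_univ _)
  have := hclopen.eq_univ ⟨x0, rfl⟩
  have h1 : w x = w x0 := by have : x ∈ {z | w z = w x0} := this ▸ mem_univ x; exact this
  have h2 : w x' = w x0 := by have : x' ∈ {z | w z = w x0} := this ▸ mem_univ x'; exact this
  rw [h1, h2]

/-- the co-metric as a bilinear form on differentials -/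
noncomputable def qf (G : Euc m → Matrix (Fin m) (Fin m) ℝ) (y : Euc m) (a b : Fin m → ℝ) : ℝ :=
  ∑ i, ∑ j, (G y)⁻¹ i j * (a i * b j)

theorem qf_nonneg {G : Euc m → Matrix (Fin m) (Fin m) ℝ} {y : Euc m} (h : (G y).PosDef)
    (a : Fin m → ℝ) : 0 ≤ qf G y a a := by
  refine (h.inv.posSemidef.dotProduct_mulVec_nonneg a).trans_eq ?_
  simp only [qf, dotProduct, Matrix.mulVec, star_trivial, Finset.mul_sum]
  refine Finset.sum_congr rfl fun i _ => Finset.sum_congr rfl fun j _ => by ring

theorem lap_comp (G : Euc m → Matrix (Fin m) (Fin m) ℝ) {u : Euc m → ℝ} {y : Euc m}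
    (hu : ContDiffAt ℝ 2 u y) {f f' : ℝ → ℝ} {f'' : ℝ}
    (hf : ∀ᶠ t in 𝓝 (u y), HasDerivAt f (f' t) t) (hf' : HasDerivAt f' f'' (u y)) :
    lap G (fun z => f (u z)) y =
      f' (u y) * lap G u y + f'' * qf G y (fun i => pd i u y) (fun i => pd i u y) := by
  have hd : DifferentiableAt ℝ u y := hu.differentiableAt (by norm_num)
  have h1 : ∀ j, pd j (fun z => f (u z)) =ᶠ[𝓝 y] fun z => f' (u z) * pd j u z := by
    intro j
    filter_upwards [ev_diff hu, hu.continuousAt.eventually hf] with z hz hz'
    exact pd_comp hz hz' j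
  have h2 : ∀ i j, pd i (pd j fun z => f (u z)) y =
      f'' * pd i u y * pd j u y + f' (u y) * pd i (pd j u) y := by
    intro i j
    have hd' : DifferentiableAt ℝ (fun z => f' (u z)) y := hf'.differentiableAt.comp y hd
    rw [pd_congr (h1 j), pd_mul hd' (differentiableAt_pd hu j), pd_comp hd hf']
  have h3 : ∀ k, pd k (fun z => f (u z)) y = f' (u y) * pd k u y := fun k => (h1 k).eq_of_nhds
  simp only [lap, hess, qf, h2, h3, Finset.mul_sum, ← Finset.sum_add_distrib]
  refine Finset.sum_congr rfl fun i _ => Finset.sum_congr rfl fun j _ => ?_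
  have : ∑ k, chris G k i j y * (f' (u y) * pd k u y) =
      f' (u y) * ∑ k, chris G k i j y * pd k u y := by
    rw [Finset.mul_sum]; exact Finset.sum_congr rfl fun k _ => by ring
  rw [this]; ring

theorem lap_lin (G : Euc m → Matrix (Fin m) (Fin m) ℝ) {u v : Euc m → ℝ} {y : Euc m}
    (hu : ContDiffAt ℝ 2 u y) (hv : ContDiffAt ℝ 2 v y) (a b : ℝ) :
    lap G (fun z => a * u z + b * v z) y = a * lap G u y + b * lap G v y := by
  have h1 : ∀ j, pd j (fun z => a * u z + b * v z) =ᶠ[𝓝 y]
      fun z => a * pd j u z + b * pd j v z := by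
    intro j
    filter_upwards [ev_diff hu, ev_diff hv] with z hz hz'
    rw [pd_add (by fun_prop) (by fun_prop), pd_const_mul hz, pd_const_mul hz']
  have h2 : ∀ i j, pd i (pd j fun z => a * u z + b * v z) y =
      a * pd i (pd j u) y + b * pd i (pd j v) y := by
    intro i j
    have e1 := differentiableAt_pd hu j
    have e2 := differentiableAt_pd hv j
    rw [pd_congr (h1 j), pd_add (by fun_prop) (by fun_prop), pd_const_mul e1, pd_const_mul e2]
  have h3 : ∀ k, pd k (fun z => a * u z + b * v z) y = a * pd k u y + b * pd k v y :=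
    fun k => (h1 k).eq_of_nhds
  simp only [lap, hess, h2, h3, Finset.mul_sum, ← Finset.sum_add_distrib]
  refine Finset.sum_congr rfl fun i _ => Finset.sum_congr rfl fun j _ => ?_
  have : ∑ k, chris G k i j y * (a * pd k u y + b * pd k v y) =
      a * ∑ k, chris G k i j y * pd k u y + b * ∑ k, chris G k i j y * pd k v y := by
    rw [Finset.mul_sum, Finset.mul_sum, ← Finset.sum_add_distrib]
    exact Finset.sum_congr rfl fun k _ => by ring
  rw [this]; ring

end Pool.Agent.H446Z.Harm
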