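import Mathlib

set_option autoImplicit false

open scoped Manifold ContDiff

namespace Pool.Agent.H446Z.Harm

universe u

/-- Euclidean `m`-space, the model space of `m`-dimensional manifolds without boundary. -/
abbrev Euc (m : ℕ) : Type := EuclideanSpace ℝ (Fin m)

/-- The partial derivative of `f` in the `i`-th coordinate. -/
noncomputable def pd {m : ℕ} (i : Fin m) (f : Euc m → ℝ) (y : Euc m) : ℝ :=
  fderiv ℝ f y (EuclideanSpace.single i 1)

/-- The Christoffel symbol `Γ^k_{ij}` of the metric with coefficient matrix `G`. -/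
noncomputable def chris {m : ℕ} (G : Euc m → Matrix (Fin m) (Fin m) ℝ) (k i j : Fin m)
    (y : Euc m) : ℝ :=
  (1 / 2) * ∑ l, (G y)⁻¹ k l *
    (pd i (fun z => G z j l) y + pd j (fun z => G z i l) y - pd l (fun z => G z i j) y)

/-- The coefficient `∂_i ∂_j f - Γ^k_{ij} ∂_k f` of the Riemannian Hessian of `f`. -/
noncomputable def hess {m : ℕ} (G : Euc m → Matrix (Fin m) (Fin m) ℝ) (f : Euc m → ℝ)
    (i j : Fin m) (y : Euc m) : ℝ :=
  pd i (pd j f) y - ∑ k, chris G k i j y * pd k f y

/-- The `c`-th component of the tension field of a map `F` written in coordinates, where `G` and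
`H` are the coefficient matrices of the metrics of the domain and of the target:
`g^{ij} (∂_i ∂_j F^c - Γ^k_{ij} ∂_k F^c + Γ^c_{ab}(F) ∂_i F^a ∂_j F^b)`. -/
noncomputable def tension {m n : ℕ} (G : Euc m → Matrix (Fin m) (Fin m) ℝ)
    (H : Euc n → Matrix (Fin n) (Fin n) ℝ) (F : Euc m → Euc n) (c : Fin n) (y : Euc m) : ℝ :=
  ∑ i, ∑ j, (G y)⁻¹ i j * (hess G (fun z => F z c) i j y +
    ∑ a, ∑ b, chris H c a b (F y) * pd i (fun z => F z a) y * pd j (fun z => F z b) y)

section

variable (E : Type*) [NormedAddCommGroup E] [NormedSpace ℝ E] (M : Type*) [TopologicalSpace M]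
  [ChartedSpace E M] [IsManifold 𝓘(ℝ, E) ∞ M]

/-- A smooth Riemannian metric on the smooth manifold `M` modelled on `E`. -/
abbrev RMetric :=
  Bundle.ContMDiffRiemannianMetric 𝓘(ℝ, E) ∞ E (fun x : M => TangentSpace 𝓘(ℝ, E) x)

variable {E M}

/-- The inner product `g_x(v, w)` of two tangent vectors at `x`. -/
noncomputable def ginner (g : RMetric E M) (x : M) (v w : TangentSpace 𝓘(ℝ, E) x) : ℝ :=
  g.inner x v w

/-- The metric `g` in the chart at `p`: the inner product, at the point with coordinates `y`, of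
the images of the coordinate vectors `v`, `w` under the differential of the inverse chart. -/
noncomputable def pull (g : RMetric E M) (p : M) (y v w : E) : ℝ :=
  ginner g ((extChartAt 𝓘(ℝ, E) p).symm y)
    (mfderiv 𝓘(ℝ, E) 𝓘(ℝ, E) (extChartAt 𝓘(ℝ, E) p).symm y v)
    (mfderiv 𝓘(ℝ, E) 𝓘(ℝ, E) (extChartAt 𝓘(ℝ, E) p).symm y w)

end

section

variable {m n : ℕ} {M : Type*} [TopologicalSpace M] [ChartedSpace (Euc m) M]
  [IsManifold (𝓡 m) ∞ M] {N : Type*} [TopologicalSpace N] [ChartedSpace (Euc n) N]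
  [IsManifold (𝓡 n) ∞ N]

/-- The coefficient matrix `g_{ij}(y) = g(∂_i, ∂_j)` of the metric `g` in the chart at `p`, at the
point with coordinates `y`. -/
noncomputable def coeff (g : RMetric (Euc m) M) (p : M) (y : Euc m) : Matrix (Fin m) (Fin m) ℝ :=
  Matrix.of fun i j => pull g p y (EuclideanSpace.single i 1) (EuclideanSpace.single j 1)

/-- `φ` is a harmonic map: it is smooth and its tension field, computed in charts of `M` and `N`,
vanishes. -/
def IsHarmonic (g : RMetric (Euc m) M) (h : RMetric (Euc n) N) (φ : M → N) : Prop :=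
  ContMDiff (𝓡 m) (𝓡 n) ∞ φ ∧
  ∀ (p : M) (q : N) (x : M), x ∈ (extChartAt (𝓡 m) p).source →
    φ x ∈ (extChartAt (𝓡 n) q).source → ∀ c : Fin n,
      tension (coeff g p) (coeff h q) (extChartAt (𝓡 n) q ∘ φ ∘ (extChartAt (𝓡 m) p).symm) c
        (extChartAt (𝓡 m) p x) = 0

/-- Property (ii): every harmonic map from a closed connected Riemannian manifold, of any
dimension, with image in `V` is constant. -/
def PropII (h : RMetric (Euc n) N) (V : Set N) : Prop :=
  ∀ (m : ℕ) (M : Type u) [TopologicalSpace M] [T2Space M] [CompactSpace M] [ConnectedSpace M]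
    [ChartedSpace (Euc m) M] [IsManifold (𝓡 m) ∞ M] (g : RMetric (Euc m) M) (φ : M → N),
    IsHarmonic g h φ → (∀ x, φ x ∈ V) → ∀ x y, φ x = φ y

/-- Property (i): on some open set `U` containing `V` there is a `C²` function whose Riemannian
Hessian is positive definite at every point of `U`. -/
def PropI (h : RMetric (Euc n) N) (V : Set N) : Prop :=
  ∃ (U : Set N) (f : N → ℝ), IsOpen U ∧ V ⊆ U ∧ ContMDiffOn (𝓡 n) 𝓘(ℝ, ℝ) 2 f U ∧
    ∀ x ∈ U, ∀ v : Fin n → ℝ, v ≠ 0 →
      0 < ∑ i, ∑ j, hess (coeff h x) (f ∘ (extChartAt (𝓡 n) x).symm) i j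
        (extChartAt (𝓡 n) x x) * v i * v j

end

end Pool.Agent.H446Z.Harm
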