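import Pool.Agent.H446Z.Harm.Target

/-! Harmonic maps into the slit domain are constant. -/

set_option autoImplicit false

open scoped Topology Manifold ContDiff
open Filter Set

namespace Pool.Agent.H446Z.Harm

universe u

theorem local_eqs {m : ℕ} (G : Euc m → Matrix (Fin m) (Fin m) ℝ) (q : Euc 2)
    (F : Euc m → Euc 2) (y : Euc m) (hz : 1 / 4 < sq2 (F y))
    (ht : ∀ c, tension G (coeff hN q) F c y = 0) (c : Fin 2) :
    lap G (fun z => F z c) y =
      (qf G y (fun i => pd i (fun z => F z c) y)
          (fun i => F y 0 * pd i (fun z => F z 0) y + F y 1 * pd i (fun z => F z 1) y) +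
        qf G y (fun i => F y 0 * pd i (fun z => F z 0) y + F y 1 * pd i (fun z => F z 1) y)
          (fun i => pd i (fun z => F z c) y) -
        F y c * (qf G y (fun i => pd i (fun z => F z 0) y) (fun i => pd i (fun z => F z 0) y) +
          qf G y (fun i => pd i (fun z => F z 1) y) (fun i => pd i (fun z => F z 1) y))) /
        sq2 (F y) := by
  have h := ht c
  have hs : sq2 (F y) ≠ 0 := by positivity
  simp only [tension, mul_add, Finset.sum_add_distrib] at h
  rw [add_eq_zero_iff_eq_neg] at h
  unfold lap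
  rw [h]
  simp only [qf, Finset.mul_sum, ← Finset.sum_add_distrib, ← Finset.sum_sub_distrib,
    Finset.sum_div, ← Finset.sum_neg_distrib, chris_hN q hz]
  refine Finset.sum_congr rfl fun i _ => Finset.sum_congr rfl fun j _ => ?_
  simp only [Fin.sum_univ_two]
  fin_cases c <;> simp <;> field_simp <;> ring

theorem qf_lin {m : ℕ} (G : Euc m → Matrix (Fin m) (Fin m) ℝ) (y : Euc m) (a b : Fin m → ℝ)
    (s t s' t' : ℝ) : qf G y (fun i => s * a i + t * b i) (fun i => s' * a i + t' * b i) =
      s * s' * qf G y a a + s * t' * qf G y a b + t * s' * qf G y b a + t * t' * qf G y b b := by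
  simp only [qf, Finset.mul_sum, ← Finset.sum_add_distrib]
  refine Finset.sum_congr rfl fun i _ => Finset.sum_congr rfl fun j _ => by ring

theorem propII : PropII.{u} hN V := by
  intro m M _ _ _ _ _ _ g φ ⟨hφ, hτ⟩ hV
  -- local description
  have hloc : ∀ p : M, ∀ y ∈ (extChartAt (𝓡 m) p).target,
      ContDiffAt ℝ 2 (φ ∘ (extChartAt (𝓡 m) p).symm) y ∧
      ∀ c, tension (coeff g p) (coeff hN 0) (φ ∘ (extChartAt (𝓡 m) p).symm) c y = 0 := by
    intro p y hy
    have h4 : ContMDiffAt (𝓡 m) (𝓡 m) ∞ (extChartAt (𝓡 m) p).symm y :=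
      (contMDiffOn_extChartAt_symm p y hy).contMDiffAt (extChartAt_target_mem_nhds' hy)
    refine ⟨((hφ _).comp y h4).contDiffAt.of_le (ENat.natCast_le_of_coe_top_le_withTop le_rfl 2),
      fun c => ?_⟩
    have := hτ p 0 _ ((extChartAt (𝓡 m) p).map_target hy) (by simp) c
    rw [(extChartAt (𝓡 m) p).right_inv hy] at this
    simpa using this
  have hφc : Continuous φ := hφ.continuous
  -- step 1: the radius is constant
  have step1 : ∀ x x', sq2 (φ x) = sq2 (φ x') := by
    refine const_of_subharmonic g (fun x => sq2 (φ x)) (contDiff_sq2.continuous.comp hφc) ?_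
    intro p y hy
    obtain ⟨h1, h2⟩ := hloc p y hy
    set F := φ ∘ (extChartAt (𝓡 m) p).symm with hF
    have hc : ∀ c, ContDiffAt ℝ 2 (fun z => F z c) y := fun c => by fun_prop
    have hz : 1 / 4 < sq2 (F y) := (hV _).1
    have e : ((fun x => sq2 (φ x)) ∘ (extChartAt (𝓡 m) p).symm) =
        fun z => 1 * (F z 0) ^ 2 + 1 * (F z 1) ^ 2 := by
      funext z; simp [hF, sq2]
    rw [e]
    refine ⟨by fun_prop, ?_⟩
    have hsq : ∀ c, lap (coeff g p) (fun z => (F z c) ^ 2) y = 2 * F y c *
        lap (coeff g p) (fun z => F z c) y + 2 * qf (coeff g p) y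
          (fun i => pd i (fun z => F z c) y) (fun i => pd i (fun z => F z c) y) := fun c =>
      lap_comp (coeff g p) (hc c) (f := fun t => t ^ 2) (f' := fun t => 2 * t) (f'' := 2)
        (Eventually.of_forall fun t => by simpa using hasDerivAt_pow 2 t)
        (by simpa using (hasDerivAt_id (F y c)).const_mul 2)
    rw [lap_lin _ (by fun_prop) (by fun_prop), hsq, hsq, local_eqs _ 0 F y hz h2,
      local_eqs _ 0 F y hz h2]
    set A := fun i => pd i (fun z => F z 0) y
    set B := fun i => pd i (fun z => F z 1) y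
    have hR := qf_nonneg (posDef_coeff g p hy) (fun i => F y 0 * A i + F y 1 * B i)
    have e1 := qf_lin (coeff g p) y A B 1 0 (F y 0) (F y 1)
    have e2 := qf_lin (coeff g p) y A B (F y 0) (F y 1) 1 0
    have e3 := qf_lin (coeff g p) y A B 0 1 (F y 0) (F y 1)
    have e4 := qf_lin (coeff g p) y A B (F y 0) (F y 1) 0 1
    simp only [one_mul, zero_mul, add_zero, zero_add, mul_one, mul_zero] at e1 e2 e3 e4
    rw [qf_lin] at hR
    have hs : 0 < sq2 (F y) := by linarith
    rw [e1, e2, e3, e4]
    refine (div_nonneg (mul_nonneg (show (0 : ℝ) ≤ 4 by norm_num) hR) hs.le).trans_eq ?_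
    have hs' : sq2 (F y) = F y 0 ^ 2 + F y 1 ^ 2 := rfl
    rw [hs'] at hs ⊢
    field_simp
    ring
  intro x0 x1
  set c := sq2 (φ x0) with hc
  have hcc : ∀ x, sq2 (φ x) = c := fun x => step1 x x0
  have hc4 : 1 / 4 < c := (hV x0).1
  -- the omitted point
  obtain ⟨a, ha2, ha⟩ : ∃ a : ℝ, a ^ 2 = c ∧ ∀ x, a * φ x 0 < c := by
    have hsq := Real.sq_sqrt (show 0 ≤ c by linarith)
    have hs0 : 0 < √c := Real.sqrt_pos.2 (by linarith)
    have key : ∀ a : ℝ, a ^ 2 = c → ∀ x, ¬ a * φ x 0 < c → φ x 0 = a ∧ φ x 1 = 0 := by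
      intro a ha x hx
      have h1 := hcc x
      unfold sq2 at h1
      have h2 : (φ x 0 - a) ^ 2 + φ x 1 ^ 2 ≤ 0 := by nlinarith
      constructor
      · nlinarith [sq_nonneg (φ x 0 - a), sq_nonneg (φ x 1)]
      · nlinarith [sq_nonneg (φ x 0 - a), sq_nonneg (φ x 1)]
    rcases le_total 1 c with h | h
    · refine ⟨√c, hsq, fun x => ?_⟩
      by_contra hx
      obtain ⟨h0, h1⟩ := key _ hsq x hx
      have h2 : 1 ≤ √c := Real.one_le_sqrt.2 h
      rcases (hV x).2 with h3 | h3 | h3
      · exact h3 h1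
      · linarith
      · linarith [h3.2]
    · refine ⟨-√c, by rw [neg_sq, hsq], fun x => ?_⟩
      by_contra hx
      obtain ⟨h0, h1⟩ := key _ (by rw [neg_sq, hsq]) x hx
      have h2 : √c ≤ 1 := Real.sqrt_le_one.2 h
      rcases (hV x).2 with h3 | h3 | h3
      · exact h3 h1
      · linarith
      · linarith [h3.1]
  have ha0 : a ≠ 0 := by rintro rfl; norm_num at ha2; linarith
  have step2 : ∀ x x', -Real.log (c - a * φ x 0) = -Real.log (c - a * φ x' 0) := by
    refine const_of_subharmonic g (fun x => -Real.log (c - a * φ x 0)) ?_ ?_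
    · refine (Continuous.log (by fun_prop) fun x => ?_).neg
      linarith [ha x]
    intro p y hy
    obtain ⟨h1, h2⟩ := hloc p y hy
    set F := φ ∘ (extChartAt (𝓡 m) p).symm with hF
    have hc : ∀ c, ContDiffAt ℝ 2 (fun z => F z c) y := fun c => by fun_prop
    have hz : 1 / 4 < sq2 (F y) := (hV _).1
    have hψ : 0 < c - a * F y 0 := sub_pos.2 (ha _)
    have e : ((fun x => -Real.log (c - a * φ x 0)) ∘ (extChartAt (𝓡 m) p).symm) =
        fun z => (fun t => -Real.log (c - a * t)) (F z 0) := rfl
    rw [e]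
    refine ⟨((contDiffAt_const.sub (contDiffAt_const.mul (hc 0))).log hψ.ne').neg, ?_⟩
    rw [lap_comp (coeff g p) (hc 0) (f := fun t => -Real.log (c - a * t))
      (f' := fun t => a * (c - a * t)⁻¹)
      (f'' := a ^ 2 / (c - a * F y 0) ^ 2), local_eqs _ 0 F y hz h2]
    · set A := fun i => pd i (fun z => F z 0) y with hA
      set B := fun i => pd i (fun z => F z 1) y with hB
      have hd : ∀ c, DifferentiableAt ℝ (fun z => F z c) y := fun c =>
        (hc c).differentiableAt (by norm_num)
      have hR0 : ∀ i, F y 0 * A i + F y 1 * B i = 0 := by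
        intro i
        have e0 : (fun z => F z 0 * F z 0 + F z 1 * F z 1) = fun _ => c := by
          funext z
          have := hcc ((extChartAt (𝓡 m) p).symm z)
          unfold sq2 at this
          simp only [hF, Function.comp]
          linarith
        have e1 := pd_const c y i
        rw [← e0, pd_add ((hd 0).fun_mul (hd 0)) ((hd 1).fun_mul (hd 1)), pd_mul (hd 0) (hd 0),
          pd_mul (hd 1) (hd 1)] at e1
        simp only [hA, hB]
        linarith
      have z1 : ∀ w : Fin m → ℝ, qf (coeff g p) y w (fun i => F y 0 * A i + F y 1 * B i) = 0 := by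
        intro w; simp [qf, hR0]
      have z2 : ∀ w : Fin m → ℝ, qf (coeff g p) y (fun i => F y 0 * A i + F y 1 * B i) w = 0 := by
        intro w; simp [qf, hR0]
      rw [z1, z2]
      have hAA := qf_nonneg (posDef_coeff g p hy) A
      have hBB := qf_nonneg (posDef_coeff g p hy) B
      have e1 := qf_lin (coeff g p) y A B (F y 0) (-F y 1) (F y 0) (F y 1)
      have e2 := qf_lin (coeff g p) y A B (F y 0) (F y 1) (F y 0) (-F y 1)
      rw [z1] at e1
      rw [z2] at e2
      have e3 : F y 0 ^ 2 * qf (coeff g p) y A A = F y 1 ^ 2 * qf (coeff g p) y B B := by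
        linarith
      have hs : sq2 (F y) = c := hcc _
      have hs' : F y 0 ^ 2 + F y 1 ^ 2 = c := hs
      rw [hs]
      have hc0 : 0 < c := by linarith
      set P := qf (coeff g p) y A A
      set Q := qf (coeff g p) y B B
      have e4 : c * P = F y 1 ^ 2 * (P + Q) := by rw [← hs']; linarith
      have e5 : a * (c - a * F y 0)⁻¹ * ((0 + 0 - F y 0 * (P + Q)) / c) +
          a ^ 2 / (c - a * F y 0) ^ 2 * P = (P + Q) / (c - a * F y 0) := by
        field_simp
        linear_combination a ^ 2 * e4 + a ^ 2 * (P + Q) * hs' + c * (P + Q) * ha2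
      rw [e5]
      positivity
    · have hcn : ContinuousAt (fun t : ℝ => c - a * t) (F y 0) := by fun_prop
      filter_upwards [hcn.eventually (lt_mem_nhds hψ)] with t ht
      have := ((((hasDerivAt_id' t).const_mul a).const_sub c).log ht.ne').fun_neg
      refine this.congr_deriv ?_
      field_simp
    · have := ((((hasDerivAt_id' (F y 0)).const_mul a).const_sub c).fun_inv hψ.ne').const_mul a
      refine this.congr_deriv ?_
      field_simp
  have h0 : ∀ x, φ x 0 = φ x0 0 := by
    intro x
    have := Real.log_injOn_pos (show c - a * φ x 0 ∈ Ioi 0 from sub_pos.2 (ha x))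
      (show c - a * φ x0 0 ∈ Ioi 0 from sub_pos.2 (ha x0)) (neg_injective (step2 x x0))
    exact mul_left_cancel₀ ha0 (by linarith)
  have h1 : ∀ x, φ x 1 = φ x0 1 ∨ φ x 1 = -φ x0 1 := by
    intro x
    have e1 := step1 x x0
    unfold sq2 at e1
    rw [h0 x] at e1
    exact sq_eq_sq_iff_eq_or_eq_neg.1 (by linarith)
  have h2 : φ x0 1 = φ x1 1 := by
    have hfin : (Set.range fun x => φ x 1).Finite :=
      (Set.toFinite {φ x0 1, -φ x0 1}).subset (by rintro _ ⟨x, rfl⟩; exact h1 x)
    have hpre : IsPreconnected (Set.range fun x => φ x 1) :=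
      isPreconnected_range (by fun_prop)
    exact (hfin.countable.isTotallyDisconnected _ subset_rfl hpre) ⟨x0, rfl⟩ ⟨x1, rfl⟩
  ext i
  fin_cases i
  · exact (h0 x1).symm
  · exact h2

end Pool.Agent.H446Z.Harm
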