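import Pool.Agent.H446Z.Harm.Chart

/-! The plane with a metric that is a flat cylinder outside a disc. -/

set_option autoImplicit false

open scoped Topology Manifold ContDiff RealInnerProductSpace
open Filter Set Bundle

namespace Pool.Agent.H446Z.Harm

/-- squared Euclidean norm -/
def sq2 (z : Euc 2) : ℝ := z 0 ^ 2 + z 1 ^ 2

noncomputable def rho (z : Euc 2) : ℝ := sq2 z + expNegInvGlue (1 / 4 - sq2 z)

theorem contDiff_sq2 : ContDiff ℝ ∞ sq2 := by unfold sq2; fun_prop

theorem contDiff_rho : ContDiff ℝ ∞ rho :=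
  contDiff_sq2.add (expNegInvGlue.contDiff.comp (contDiff_const.sub contDiff_sq2))

theorem rho_pos (z : Euc 2) : 0 < rho z := by
  unfold rho
  have h0 : 0 ≤ sq2 z := by unfold sq2; positivity
  rcases lt_or_ge (sq2 z) (1 / 4) with h | h
  · have := expNegInvGlue.pos_of_pos (x := 1 / 4 - sq2 z) (by linarith)
    linarith
  · have := expNegInvGlue.nonneg (1 / 4 - sq2 z)
    linarith

theorem rho_eq {z : Euc 2} (h : 1 / 4 < sq2 z) : rho z = sq2 z := by
  unfold rho
  rw [expNegInvGlue.zero_of_nonpos (by linarith), add_zero]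

/-- the Euclidean inner product as a bilinear map -/
noncomputable def ip : Euc 2 →L[ℝ] Euc 2 →L[ℝ] ℝ := innerSL ℝ (E := Euc 2)

theorem contDiff_smul_const {W : Type*} [NormedAddCommGroup W] [NormedSpace ℝ W] (w : W) :
    ContDiff ℝ ∞ (fun x : Euc 2 => (rho x)⁻¹ • w) :=
  (contDiff_rho.inv fun z => (rho_pos z).ne').smul contDiff_const

theorem contDiff_ip : ContDiff ℝ ∞ (fun x : Euc 2 => (rho x)⁻¹ • ip) :=
  contDiff_smul_const ip

set_option backward.isDefEq.respectTransparency false in
/-- the metric `|dz|² / rho` -/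
noncomputable def hN : RMetric (Euc 2) (Euc 2) where
  inner x := ((rho x)⁻¹ • ip : Euc 2 →L[ℝ] Euc 2 →L[ℝ] ℝ)
  symm x v w := by
    change (rho x)⁻¹ * ⟪(v : Euc 2), (w : Euc 2)⟫ = (rho x)⁻¹ * ⟪(w : Euc 2), (v : Euc 2)⟫
    rw [real_inner_comm]
  pos x v hv := by
    change 0 < (rho x)⁻¹ * ⟪(v : Euc 2), (v : Euc 2)⟫
    exact mul_pos (inv_pos.2 (rho_pos x)) (real_inner_self_pos.2 hv)
  isVonNBounded x := by
    change Bornology.IsVonNBounded ℝ {v : Euc 2 | (rho x)⁻¹ * ⟪v, v⟫ < 1}
    refine (NormedSpace.isVonNBounded_ball ℝ (Euc 2) (rho x + 1)).subset fun v hv => ?_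
    have h1 : (rho x)⁻¹ * ⟪v, v⟫ < 1 := hv
    rw [inv_mul_lt_iff₀ (rho_pos x), real_inner_self_eq_norm_sq] at h1
    rw [mem_ball_zero_iff]
    nlinarith [rho_pos x, norm_nonneg v]
  contMDiff := by
    intro x
    rw [contMDiffAt_section]
    have h : ContMDiffAt (𝓡 2) 𝓘(ℝ, Euc 2 →L[ℝ] Euc 2 →L[ℝ] ℝ) ∞
        (fun x : Euc 2 => (rho x)⁻¹ • ip) x :=
      contDiff_ip.contDiffAt.contMDiffAt
    convert! h using 2
    ext v w
    simp [hom_trivializationAt_apply, ContinuousLinearMap.inCoordinates, TangentSpace]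

theorem coeff_hN (q z : Euc 2) (i j : Fin 2) :
    coeff hN q z i j = (rho z)⁻¹ * if i = j then 1 else 0 := by
  have h1 : ((extChartAt (𝓡 2) q).symm : Euc 2 → Euc 2) = id := by
    simp
  have h2 : ∀ f : Euc 2 → Euc 2, f = id → hN.inner (f z)
      (mfderiv (𝓡 2) (𝓡 2) f z (EuclideanSpace.single i 1))
      (mfderiv (𝓡 2) (𝓡 2) f z (EuclideanSpace.single j 1)) =
      (rho z)⁻¹ * ⟪(EuclideanSpace.single i 1 : Euc 2), (EuclideanSpace.single j 1 : Euc 2)⟫ := by
    rintro f rfl
    rw [mfderiv_id]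
    rfl
  refine (h2 _ h1).trans ?_
  simp [EuclideanSpace.inner_single_left, eq_comm]

theorem inv_coeff_hN (q z : Euc 2) (i j : Fin 2) :
    (coeff hN q z)⁻¹ i j = rho z * if i = j then 1 else 0 := by
  have : (coeff hN q z)⁻¹ = Matrix.of fun i j => rho z * if i = j then 1 else 0 := by
    apply Matrix.inv_eq_left_inv
    ext a b
    have := (rho_pos z).ne'
    fin_cases a <;> fin_cases b <;> simp [Matrix.mul_apply, coeff_hN, this]
  rw [this]; rfl

theorem pd_sq2 (z : Euc 2) (k : Fin 2) : pd k sq2 z = 2 * z k := by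
  have := pd_sq (0 : Euc 2) z k
  simp only [Fin.sum_univ_two, PiLp.zero_apply, sub_zero] at this
  exact this

theorem chris_hN (q : Euc 2) {z : Euc 2} (hz : 1 / 4 < sq2 z) (c a b : Fin 2) :
    chris (coeff hN q) c a b z = -((if c = b then z a else 0) + (if c = a then z b else 0)
      - (if a = b then z c else 0)) / sq2 z := by
  have hs : 0 < sq2 z := by linarith
  have h1 : ∀ k i j, pd k (fun y => coeff hN q y i j) z =
      -(2 * z k) / sq2 z ^ 2 * if i = j then 1 else 0 := by
    intro k i j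
    have e : (fun y => coeff hN q y i j) =ᶠ[𝓝 z]
        fun y => (fun t : ℝ => t⁻¹ * if i = j then 1 else 0) (sq2 y) := by
      filter_upwards [contDiff_sq2.continuous.continuousAt.eventually (lt_mem_nhds hz)] with y hy
      rw [coeff_hN, rho_eq hy]
    rw [pd_congr e, pd_comp (contDiff_sq2.differentiable (by simp) z)
      ((hasDerivAt_inv hs.ne').mul_const _), pd_sq2]
    field_simp
  simp only [chris, h1, inv_coeff_hN, rho_eq hz, Fin.sum_univ_two]
  fin_cases c <;> fin_cases a <;> fin_cases b <;> simp <;> field_simp <;> ring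

/-- the domain: the exterior of a disc with two slits removed -/
def V : Set (Euc 2) := {z | 1 / 4 < sq2 z ∧ (z 1 ≠ 0 ∨ z 0 < -1 ∨ (0 < z 0 ∧ z 0 < 1))}

theorem isOpen_V : IsOpen V := by
  have h0 : Continuous fun z : Euc 2 => z 0 := by fun_prop
  have h1 : Continuous fun z : Euc 2 => z 1 := by fun_prop
  exact (isOpen_lt continuous_const contDiff_sq2.continuous).inter
    ((isOpen_ne_fun h1 continuous_const).union ((isOpen_lt h0 continuous_const).union
      ((isOpen_lt continuous_const h0).inter (isOpen_lt h0 continuous_const))))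

theorem joined_of (p q : Euc 2)
    (h : ∀ t : ℝ, 0 ≤ t → t ≤ 1 → ∀ z : Euc 2, z 0 = (1 - t) * p 0 + t * q 0 →
      z 1 = (1 - t) * p 1 + t * q 1 → z ∈ V) : JoinedIn V p q := by
  refine JoinedIn.of_segment_subset ?_
  rintro z ⟨a, b, ha, hb, hab, rfl⟩
  refine h b hb (by linarith) _ ?_ ?_ <;> simp [show 1 - b = a by linarith]

theorem isConnected_V : IsConnected V := by
  refine IsPathConnected.isConnected ⟨!₂[-2, 0], ⟨by norm_num [sq2], by norm_num⟩, ?_⟩
  intro p hp
  have hup : ∀ s : ℝ, s = 1 ∨ s = -1 → 0 ≤ s * p 1 → JoinedIn V !₂[-2, 0] p := by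
    intro s hs hsp
    have hs2 : s ^ 2 = 1 := by rcases hs with rfl | rfl <;> norm_num
    have hs0 : s ≠ 0 := by rintro rfl; norm_num at hs2
    have j1 : JoinedIn V !₂[-2, 0] !₂[-2, p 1 + s] := joined_of _ _ (by
      intro t h0 h1 z hz0 hz1
      simp at hz0 hz1
      have : z 0 = -2 := by linarith
      refine ⟨?_, Or.inr (Or.inl (by linarith))⟩
      unfold sq2; rw [this]; nlinarith [sq_nonneg (z 1)])
    have j2 : JoinedIn V !₂[-2, p 1 + s] !₂[p 0, p 1 + s] := joined_of _ _ (by
      intro t h0 h1 z hz0 hz1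
      simp at hz0 hz1
      have : z 1 = p 1 + s := by linarith
      have h2 : 1 ≤ z 1 ^ 2 := by rw [this]; nlinarith [sq_nonneg (p 1)]
      refine ⟨?_, Or.inl ?_⟩
      · unfold sq2; nlinarith [sq_nonneg (z 0)]
      · intro h; rw [h] at h2; norm_num at h2)
    have j3 : JoinedIn V !₂[p 0, p 1 + s] p := joined_of _ _ (by
      intro t h0 h1 z hz0 hz1
      simp at hz0 hz1
      have e0 : z 0 = p 0 := by linarith
      have e1 : z 1 = p 1 + (1 - t) * s := by linarith
      have h2 : p 1 ^ 2 ≤ z 1 ^ 2 := by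
        rw [e1]; nlinarith [mul_nonneg (sub_nonneg.2 h1) hsp, sq_nonneg ((1 - t) * s)]
      refine ⟨?_, ?_⟩
      · have := hp.1
        unfold sq2 at this ⊢
        rw [e0]; linarith
      · rw [e0]
        by_cases hz : z 1 = 0
        · have : p 1 = 0 := by
            rw [hz] at h2
            exact pow_eq_zero_iff two_ne_zero |>.1 (le_antisymm (by simpa using h2) (sq_nonneg _))
          rcases hp.2 with h | h
          · exact absurd this h
          · exact Or.inr h
        · exact Or.inl hz)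
    exact (j1.trans j2).trans j3
  rcases le_total 0 (p 1) with h | h
  · exact hup 1 (Or.inl rfl) (by linarith)
  · exact hup (-1) (Or.inr rfl) (by linarith)

/-- the circle of radius `r` -/
noncomputable def circ (r t : ℝ) : Euc 2 := !₂[r * Real.cos t, r * Real.sin t]

theorem sq2_circ (r t : ℝ) : sq2 (circ r t) = r ^ 2 := by
  simp only [sq2, circ]
  simp
  nlinarith [Real.sin_sq_add_cos_sq t]

theorem hasDerivAt_circ (r t : ℝ) :
    HasDerivAt (circ r) !₂[-(r * Real.sin t), r * Real.cos t] t := by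
  have h : HasDerivAt (fun t => (![r * Real.cos t, r * Real.sin t] : Fin 2 → ℝ))
      ![-(r * Real.sin t), r * Real.cos t] t := by
    rw [hasDerivAt_pi]
    intro i
    fin_cases i
    · simpa using (Real.hasDerivAt_cos t).const_mul r
    · simpa using (Real.hasDerivAt_sin t).const_mul r
  exact (EuclideanSpace.equiv (Fin 2) ℝ).symm.toContinuousLinearMap.hasFDerivAt.comp_hasDerivAt t h

theorem not_propI : ¬ PropI hN V := by
  rintro ⟨U, f, hU, hVU, hf, hpos⟩
  have hf2 : ∀ z ∈ V, ContDiffAt ℝ 2 f z := fun z hz =>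
    (hf.contMDiffAt (hU.mem_nhds (hVU hz))).contDiffAt
  have hpos' : ∀ z ∈ V, ∀ v : Fin 2 → ℝ, v ≠ 0 →
      0 < ∑ i, ∑ j, hess (coeff hN z) f i j z * v i * v j := by
    intro z hz v hv
    simpa using hpos z (hVU hz) v hv
  let g : ℝ → ℝ → ℝ := fun r t =>
    -(r * Real.sin t) * pd 0 f (circ r t) + r * Real.cos t * pd 1 f (circ r t)
  have hder : ∀ r t, circ r t ∈ V → ∃ d, 0 < d ∧ HasDerivAt (g r) d t := by
    intro r t hz
    have hr : 1 / 4 < r ^ 2 := by rw [← sq2_circ r t]; exact hz.1
    have hd : ∀ j, HasDerivAt (fun t => pd j f (circ r t))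
        (-(r * Real.sin t) * pd 0 (pd j f) (circ r t) + r * Real.cos t * pd 1 (pd j f) (circ r t))
        t := by
      intro j
      have := (differentiableAt_pd (hf2 _ hz) j).hasFDerivAt.comp_hasDerivAt t
        (hasDerivAt_circ r t)
      rw [fderiv_eq_sum] at this
      simpa [Fin.sum_univ_two, Function.comp_def] using this
    have h1 := (((Real.hasDerivAt_sin t).const_mul r).fun_neg.fun_mul (hd 0)).fun_add
      (((Real.hasDerivAt_cos t).const_mul r).fun_mul (hd 1))
    refine ⟨_, ?_, h1⟩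
    have hv : (![-(r * Real.sin t), r * Real.cos t] : Fin 2 → ℝ) ≠ 0 := by
      intro h0
      have a0 := congrFun h0 0
      have a1 := congrFun h0 1
      simp only [Matrix.cons_val_zero, Matrix.cons_val_one, Pi.zero_apply, neg_eq_zero] at a0 a1
      have := Real.sin_sq_add_cos_sq t
      have : r ^ 2 = (r * Real.sin t) ^ 2 + (r * Real.cos t) ^ 2 := by nlinarith
      rw [a0, a1] at this
      linarith
    refine (hpos' _ hz _ hv).trans_eq ?_
    have hr0 : r ^ 2 ≠ 0 := by positivity
    have hr1 : r ≠ 0 := by rintro rfl; norm_num at hr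
    simp only [hess, chris_hN _ hz.1, Fin.sum_univ_two, sq2_circ]
    have c0 : (circ r t) 0 = r * Real.cos t := rfl
    have c1 : (circ r t) 1 = r * Real.sin t := rfl
    simp [c0, c1]
    field_simp
    have := Real.sin_sq_add_cos_sq t
    linear_combination (Real.cos t * pd 0 f (circ r t) + Real.sin t * pd 1 f (circ r t)) * -this
  have hmono : ∀ r a b, a < b → (∀ t ∈ Icc a b, circ r t ∈ V) → g r a < g r b := by
    intro r a b hab h
    refine strictMonoOn_of_deriv_pos (convex_Icc a b) (fun t ht => ?_) (fun t ht => ?_)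
      (left_mem_Icc.2 hab.le) (right_mem_Icc.2 hab.le) hab
    · obtain ⟨d, -, hd⟩ := hder r t (h t ht)
      exact hd.continuousAt.continuousWithinAt
    · obtain ⟨d, hd0, hd⟩ := hder r t (h t (interior_subset ht))
      rwa [hd.deriv]
  have hcont : ∀ t, circ 1 t ∈ V → ContinuousAt (fun r => g r t) 1 := by
    intro t ht
    have hc : ContinuousAt (fun r => circ r t) 1 := by
      unfold circ; fun_prop
    have h1 : ∀ j, ContinuousAt (fun r => pd j f (circ r t)) 1 := fun j =>
      ContinuousAt.comp (f := fun r => circ r t) (differentiableAt_pd (hf2 _ ht) j).continuousAt hc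
    exact ((by fun_prop : ContinuousAt (fun r => -(r * Real.sin t)) 1).mul (h1 0)).add
      ((by fun_prop : ContinuousAt (fun r => r * Real.cos t) 1).mul (h1 1))
  have hpi := Real.pi_pos
  have memV : ∀ r t, 1 / 2 < r → Real.sin t ≠ 0 → circ r t ∈ V := by
    intro r t hr hs
    refine ⟨by rw [sq2_circ]; nlinarith, Or.inl ?_⟩
    exact mul_ne_zero (by linarith) hs
  have sa : ∀ t, 0 < t → t < Real.pi → Real.sin t ≠ 0 := fun t h1 h2 =>
    (Real.sin_pos_of_pos_of_lt_pi h1 h2).ne'
  have sb : Real.sin (3 * Real.pi / 2) ≠ 0 := by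
    rw [show 3 * Real.pi / 2 = Real.pi / 2 + Real.pi by ring, Real.sin_add_pi]; simp
  have hper : ∀ r, g r (-(Real.pi / 2)) = g r (3 * Real.pi / 2) := by
    intro r
    rw [show 3 * Real.pi / 2 = -(Real.pi / 2) + 2 * Real.pi by ring]
    simp only [g, circ, Real.sin_add_two_pi, Real.cos_add_two_pi]
  have A : g 1 (Real.pi / 3) < g 1 (2 * Real.pi / 3) :=
    hmono _ _ _ (by linarith) fun t ht =>
      memV _ _ (by norm_num) (sa t (by linarith [ht.1]) (by linarith [ht.2]))
  have B : g 1 (2 * Real.pi / 3) ≤ g 1 (3 * Real.pi / 2) := by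
    have h1 := (hcont _ (memV 1 _ (by norm_num) (sa (2 * Real.pi / 3) (by linarith)
      (by linarith)))).tendsto.mono_left (nhdsWithin_le_nhds (s := Ioi 1))
    have h2 := (hcont _ (memV 1 _ (by norm_num) sb)).tendsto.mono_left
      (nhdsWithin_le_nhds (s := Ioi 1))
    refine le_of_tendsto_of_tendsto h1 h2 ?_
    filter_upwards [self_mem_nhdsWithin] with r hr
    have hr' : 1 < r := hr
    refine (hmono r _ _ (by linarith) fun t ht => ?_).le
    by_cases hs : Real.sin t = 0
    · have ht' : t = Real.pi := by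
        have : Real.sin (t - Real.pi) = 0 := by rw [Real.sin_sub_pi, hs, neg_zero]
        have := (Real.sin_eq_zero_iff_of_lt_of_lt (x := t - Real.pi) (by linarith [ht.1])
          (by linarith [ht.2])).1 this
        linarith
      refine ⟨by rw [sq2_circ]; nlinarith, Or.inr (Or.inl ?_)⟩
      change r * Real.cos t < -1
      rw [ht', Real.cos_pi]; linarith
    · exact memV _ _ (by linarith) hs
  have C : g 1 (3 * Real.pi / 2) ≤ g 1 (Real.pi / 3) := by
    have h1 := (hcont _ (memV 1 _ (by norm_num) (sa (Real.pi / 3) (by linarith)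
      (by linarith)))).tendsto.mono_left (nhdsWithin_le_nhds (s := Iio 1))
    have h2 := (hcont _ (memV 1 _ (by norm_num) sb)).tendsto.mono_left
      (nhdsWithin_le_nhds (s := Iio 1))
    refine le_of_tendsto_of_tendsto h2 h1 ?_
    filter_upwards [Ioo_mem_nhdsLT (show (1 / 2 : ℝ) < 1 by norm_num)] with r hr
    rw [← hper]
    refine (hmono r _ _ (by linarith) fun t ht => ?_).le
    by_cases hs : Real.sin t = 0
    · have ht' : t = 0 := (Real.sin_eq_zero_iff_of_lt_of_lt (by linarith [ht.1])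
          (by linarith [ht.2])).1 hs
      refine ⟨by rw [sq2_circ]; nlinarith [hr.1], Or.inr (Or.inr ?_)⟩
      change 0 < r * Real.cos t ∧ r * Real.cos t < 1
      rw [ht', Real.cos_zero]; constructor <;> linarith [hr.1, hr.2]
    · exact memV _ _ hr.1 hs
  linarith

end Pool.Agent.H446Z.Harm
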